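import Pool.Agent.helper47.MSW.SpecA
import Pool.Agent.helper47.MSW.SpecC

/-!
# Row msw:BX2
-/

set_option autoImplicit false

namespace Pool.Agent.MSW

open Equiv Finset Function MeasureTheory Pool.Agent.helper48.PP
open Pool.Agent.DSW (Pr Has GP wt)
open scoped ENNReal Classical

noncomputable section

theorem BX2_mono (a b : ℕ) (h : a < b) : StrictMono (![a, b] : Fin 2 → ℕ) := by
  intro i j hij
  fin_cases i <;> fin_cases j <;> simp_all

theorem BX2_key (ω : Om) (s : Pt) : HP (1 : Perm (Fin 2)) (fun c => ω (s.1 - 1 - c.1, c.2)) 0 s ↔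
    HP (Equiv.swap (0 : Fin 2) 1) ω 0 s := by
  constructor
  · rintro ⟨h0, x, y, hx, hy, h⟩
    obtain ⟨a1, ⟨_, a2⟩, a3, a4⟩ := h 0
    obtain ⟨b1, ⟨_, b2⟩, b3, b4⟩ := h 1
    have hx1 : x 0 < x 1 := hx (by decide)
    refine ⟨h0, ![s.1 - 1 - x 1, s.1 - 1 - x 0], y, BX2_mono _ _ (by omega), hy, ?_⟩
    intro j
    fin_cases j
    · refine ⟨?_, ⟨Nat.zero_le _, ?_⟩, ?_⟩
      · simpa using b1
      · change s.1 - 1 - x 1 < s.1
        omega
      · exact ⟨a3, a4⟩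
    · refine ⟨?_, ⟨Nat.zero_le _, ?_⟩, ?_⟩
      · simpa using a1
      · change s.1 - 1 - x 0 < s.1
        omega
      · exact ⟨b3, b4⟩
  · rintro ⟨h0, x, y, hx, hy, h⟩
    obtain ⟨a1, ⟨_, a2⟩, a3⟩ := h 0
    obtain ⟨b1, ⟨_, b2⟩, b3⟩ := h 1
    have hx1 : x 0 < x 1 := hx (by decide)
    rw [Equiv.swap_apply_left] at a1
    rw [Equiv.swap_apply_right] at b1
    refine ⟨h0, ![s.1 - 1 - x 1, s.1 - 1 - x 0], y, BX2_mono _ _ (by omega), hy, ?_⟩
    intro j
    fin_cases j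
    · refine ⟨?_, ⟨Nat.zero_le _, ?_⟩, a3⟩
      · change ω (s.1 - 1 - (s.1 - 1 - x 1), y 0) = true
        rw [show s.1 - 1 - (s.1 - 1 - x 1) = x 1 by omega]
        exact b1
      · change s.1 - 1 - x 1 < s.1
        omega
    · refine ⟨?_, ⟨Nat.zero_le _, ?_⟩, b3⟩
      · change ω (s.1 - 1 - (s.1 - 1 - x 0), y 1) = true
        rw [show s.1 - 1 - (s.1 - 1 - x 0) = x 0 by omega]
        exact a1
      · change s.1 - 1 - x 0 < s.1
        omega

theorem BX2 (hHLA : HLA_stmt) (hTRN : TRN_stmt) (hTRL : TRL_stmt) : BX2_stmt := by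
  intro d p q hd0 hd1
  obtain ⟨h1, _, _, h4, _, _, h7⟩ := hHLA
  by_cases hpq : p ≤ q
  · obtain ⟨s, rfl⟩ : ∃ s : Pt, q = p + s := ⟨(q.1 - p.1, q.2 - p.2), by
      obtain ⟨e1, e2⟩ := hpq
      refine Prod.ext ?_ ?_
      · change q.1 = p.1 + (q.1 - p.1)
        omega
      · change q.2 = p.2 + (q.2 - p.2)
        omega⟩
    rw [hTRL.2 [sw true] d p s hd0 hd1, hTRL.2 [sw false] d p s hd0 hd1]
    have hinj : Set.InjOn (fun c : Pt => ((s.1 - 1 - c.1, c.2) : Pt)) (box 0 s : Set Pt) := by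
      intro a ha b hb hab
      rw [Finset.mem_coe, mem_box] at ha hb
      have hab' : ((s.1 - 1 - a.1, a.2) : Pt) = (s.1 - 1 - b.1, b.2) := hab
      obtain ⟨e1, e2⟩ := Prod.mk.injEq _ _ _ _ ▸ hab'
      exact Prod.ext (by omega) e2
    have := hTRN d (box 0 s) {ω | HL [sw true] ω 0 s} (fun c => (s.1 - 1 - c.1, c.2)) hd0 hd1
      (h4 [sw true] 0 s) hinj
    rw [← this]
    congr 1
    ext ω
    change HL [sw true] (fun c => ω (s.1 - 1 - c.1, c.2)) 0 s ↔ HL [sw false] ω 0 s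
    rw [h7, h7]
    exact BX2_key ω s
  · have e1 : {ω : Om | HL [sw true] ω p q} = ∅ := by
      ext ω
      simp only [Set.mem_empty_iff_false, iff_false]
      exact fun h => hpq (h1 _ ω p q h)
    have e2 : {ω : Om | HL [sw false] ω p q} = ∅ := by
      ext ω
      simp only [Set.mem_empty_iff_false, iff_false]
      exact fun h => hpq (h1 _ ω p q h)
    rw [e1, e2]

end

end Pool.Agent.MSW
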