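import Pool.Agent.helper47.MSW.SpecB
import Pool.Agent.helper47.MSW.SpecC

/-!
# Row msw:RTL
-/

set_option autoImplicit false

namespace Pool.Agent.MSW

open Equiv Finset Function MeasureTheory Pool.Agent.helper48.PP
open Pool.Agent.DSW (Pr Has GP wt)
open scoped ENNReal Classical

noncomputable section

theorem RTL_tl (Y : List Pat) : tl Y.reverse = tl Y := by
  unfold tl
  rw [List.map_reverse, List.sum_reverse]

theorem RTL (hSWL : SWL_stmt) (hZPR : ZPR_stmt) (hZBU : ZBU_stmt) (hPTD : PTD_stmt) : RTL_stmt := by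
  intro s
  obtain ⟨n, hn⟩ := hSWL s
  refine ⟨n, fun M hM2 hMs => ?_⟩
  obtain ⟨c, θ₀, hc0, hc1, hθ0, hθ1, hS⟩ := hn M hM2 hMs
  obtain ⟨K, c', θ', hK, hc'0, hc'1, hθ'0, hθ'1, hP⟩ := hPTD M (by omega)
  refine ⟨c / 2, min θ₀ θ', by positivity, by linarith, lt_min hθ0 hθ'0, (min_le_left _ _).trans hθ1, ?_⟩
  intro θ hθ hθle k
  have hθle1 : θ ≤ θ₀ := hθle.trans (min_le_left _ _)
  have hθle2 : θ ≤ θ' := hθle.trans (min_le_right _ _)
  obtain ⟨N, hN⟩ := exists_nat_ge (22 / (c / 2 * θ ^ n * (c' * θ) ^ (2 * k)))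
  refine ⟨M + 2 * n + N + 1, fun H hH X Y hX hY hXk hYk => ?_⟩
  have hHM : M ≤ H := by omega
  have hH1 : 1 ≤ H := by omega
  have hδ : 0 < c / 2 * θ ^ n * (c' * θ) ^ (2 * k) := by positivity
  have hHR : (0 : ℝ) < H := by exact_mod_cast hH1
  have h22 : 22 / (H : ℝ) ≤ c / 2 * θ ^ n * (c' * θ) ^ (2 * k) := by
    rw [div_le_iff₀ hHR]
    rw [div_le_iff₀ hδ] at hN
    have : (N : ℝ) ≤ H := by exact_mod_cast (by omega : N ≤ H)
    nlinarith
  have hY' : ∀ b ∈ Y.reverse, b.1 + 1 ≤ M := fun b hb => (hY b (List.mem_reverse.1 hb)).1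
  obtain ⟨_, hX1, hX2, _⟩ := hP θ H X hθ hθle2 hHM (fun b hb => (hX b hb).1)
  obtain ⟨_, hY1, hY2, _⟩ := hP θ H Y.reverse hθ hθle2 hHM hY'
  rw [RTL_tl] at hY2
  have hcθ0 : 0 < c' * θ := by positivity
  have hcθ1 : c' * θ ≤ 1 := by nlinarith
  -- the lower bound for `a`
  have ha : ENNReal.ofReal ((c' * θ) ^ (2 * k)) ≤ A1 H (den θ H) X * A1 H (den θ H) Y.reverse := by
    calc ENNReal.ofReal ((c' * θ) ^ (2 * k))
        ≤ ENNReal.ofReal ((c' * θ) ^ tl X * (c' * θ) ^ tl Y) := by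
          refine ENNReal.ofReal_le_ofReal ?_
          rw [← pow_add]
          exact pow_le_pow_of_le_one hcθ0.le hcθ1 (by omega)
      _ = ENNReal.ofReal ((c' * θ) ^ tl X) * ENNReal.ofReal ((c' * θ) ^ tl Y) :=
          ENNReal.ofReal_mul (by positivity)
      _ ≤ _ := mul_le_mul' hX2 hY2
  have hale : A1 H (den θ H) X * A1 H (den θ H) Y.reverse ≤ 1 := by
    calc A1 H (den θ H) X * A1 H (den θ H) Y.reverse ≤ 1 * 1 := mul_le_mul' hX1 hY1
      _ = 1 := one_mul 1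
  have hZf : Z H (den θ H) (X ++ Blk s false ++ Y) ≤ A1 H (den θ H) X * A1 H (den θ H) Y.reverse := by
    refine (hZPR θ H X (Blk s false) Y hθ.le (by linarith) hH1 (fun b hb => (hY b hb).2)).trans ?_
    calc A1 H (den θ H) X * Z H (den θ H) (Blk s false) * A1 H (den θ H) Y.reverse
        ≤ A1 H (den θ H) X * 1 * A1 H (den θ H) Y.reverse := by
          gcongr
          exact hZBU.2.2 H (den θ H) _ hH1
      _ = _ := by rw [mul_one]
  have hmain := hS θ H X Y hθ hθle1 hHM (by omega) hX hY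
  generalize A1 H (den θ H) X * A1 H (den θ H) Y.reverse = a at *
  generalize Z H (den θ H) (X ++ Blk s false ++ Y) = zf at *
  generalize Z H (den θ H) (X ++ Blk s true ++ Y) = zt at *
  have hafin : a ≠ ⊤ := (hale.trans_lt ENNReal.one_lt_top).ne
  have hE : ENNReal.ofReal (c * θ ^ n) = ENNReal.ofReal (c / 2 * θ ^ n) + ENNReal.ofReal (c / 2 * θ ^ n) := by
    rw [← ENNReal.ofReal_add (by positivity) (by positivity)]
    congr 1
    ring
  have h3 : ENNReal.ofReal (22 / (H : ℝ)) ≤ ENNReal.ofReal (c / 2 * θ ^ n) * a := by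
    calc ENNReal.ofReal (22 / (H : ℝ)) ≤ ENNReal.ofReal (c / 2 * θ ^ n * (c' * θ) ^ (2 * k)) :=
          ENNReal.ofReal_le_ofReal h22
      _ = ENNReal.ofReal (c / 2 * θ ^ n) * ENNReal.ofReal ((c' * θ) ^ (2 * k)) :=
          ENNReal.ofReal_mul (by positivity)
      _ ≤ _ := mul_le_mul' le_rfl ha
  have h4 : zf + ENNReal.ofReal (c / 2 * θ ^ n) * a + ENNReal.ofReal (c / 2 * θ ^ n) * a ≤
      zt + ENNReal.ofReal (c / 2 * θ ^ n) * a := by
    calc zf + ENNReal.ofReal (c / 2 * θ ^ n) * a + ENNReal.ofReal (c / 2 * θ ^ n) * a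
        = zf + ENNReal.ofReal (c * θ ^ n) * a := by rw [hE]; ring
      _ ≤ zt + ENNReal.ofReal (22 / (H : ℝ)) := hmain
      _ ≤ zt + ENNReal.ofReal (c / 2 * θ ^ n) * a := by gcongr
  have h5 : zf + ENNReal.ofReal (c / 2 * θ ^ n) * a ≤ zt :=
    (ENNReal.add_le_add_iff_right (ENNReal.mul_ne_top ENNReal.ofReal_ne_top hafin)).1 h4
  calc ENNReal.ofReal (1 + c / 2 * θ ^ n) * zf
      = zf + ENNReal.ofReal (c / 2 * θ ^ n) * zf := by
        rw [ENNReal.ofReal_add zero_le_one (by positivity), ENNReal.ofReal_one]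
        ring
    _ ≤ zf + ENNReal.ofReal (c / 2 * θ ^ n) * a := by gcongr
    _ ≤ zt := h5

end

end Pool.Agent.MSW
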